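import Pool.Agent.helper35.LV.Spec

/-!
# lv:EQK (helper89)
-/

set_option autoImplicit false

namespace Pool.Agent.LV

open Matrix Pool.Agent.H48SL Pool.Agent.UG

theorem EQK : EQK_stmt := by
  intro n H v hv hN g₁ h₁ g₂ h₂ γ hγ hg₂ hg₁
  have hfix : qg g₂⁻¹ *ᵥ castV v = castV v := by
    have h := congrArg (fun w => qg g₂⁻¹ *ᵥ w) hg₂
    have h' : qg g₂⁻¹ *ᵥ (qg g₂ *ᵥ castV v) = qg g₂⁻¹ *ᵥ castV v := h
    rw [Matrix.mulVec_mulVec, qg_inv_mul, Matrix.one_mulVec] at h'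
    exact h'.symm
  have hβ : (γ ᵥ* qg g₂⁻¹) ⬝ᵥ castV v = 0 := by
    rw [← Matrix.dotProduct_mulVec, hfix, hγ]
  have hmat : qg (g₁ * g₂⁻¹) = 1 + vecMulVec (castV v) (γ ᵥ* qg g₂⁻¹) := by
    rw [qg_mul, hg₁, add_mul, qg_mul_inv, Matrix.vecMulVec_mul]
  have h1 : g₁ * g₂⁻¹ = 1 := hN _ (H.mul_mem h₁ (H.inv_mem h₂)) _ hβ hmat
  have h2 : g₁ = g₂ := mul_inv_eq_one.1 h1
  rw [h2] at hg₁
  have h3 : vecMulVec (castV v) γ = 0 := by
    have h4 : qg g₂ + vecMulVec (castV v) γ = qg g₂ + 0 := by rw [add_zero]; exact hg₁.symm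
    exact add_left_cancel h4
  obtain ⟨i, hi⟩ := Function.ne_iff.1 hv
  have hi' : castV v i ≠ 0 := by
    show ((v i : ℤ) : ℚ) ≠ 0
    exact_mod_cast hi
  funext j
  have h5 := congrFun (congrFun h3 i) j
  rw [Matrix.vecMulVec_apply] at h5
  exact (mul_eq_zero.1 h5).resolve_left hi'

end Pool.Agent.LV
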